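import Pool.Agent.R702.GrLie

/-!
# `E₀^*(IA_3)` is not a free Lie algebra modulo quadratic relations

Let `A`, `B`, `C` be the automorphisms of the free group `F_3 = ⟨x₁, x₂, x₃⟩` fixing `x₂` and `x₃` with
`A(x₁) = x₂⁻¹ x₁ x₂`, `B(x₁) = x₃⁻¹ x₁ x₃` and `C(x₁) = x₁ [x₂, x₃]`.  The automorphism `[A,B] C⁻¹`
multiplies `x₁` on the left by `[x₃, x₂]`, hence commutes with `[C, A]`, which multiplies `x₁` on the
right by an element of `⟨x₂, x₃⟩`.  Therefore the classes `a`, `c` of `A`, `C` in `V = IA_3 / Γ₂`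
satisfy `[c, [c, a]] = 0` in `E₀^*(IA_3)`.  This relation is not a consequence of the quadratic ones:
there is a homomorphism `V → ℤ²`, `A ↦ (1, 0)`, `C ↦ (0, 1)`, whose exterior square vanishes on all
quadratic relations (it is the coboundary of a Magnus coefficient), so that `V` maps to the two
dimensional subspace of `gl_2(ℤ)` spanned by `e₂₁`, `e₁₂`, quadratic relations map to `0` and
`[c, [c, a]]` maps to `-2 e₁₂`.
-/

set_option autoImplicit false

namespace Pool.Agent.Results.MP_df4ecf_al.CubicRelationIA3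

open BurnLie Pool.Agent.R702.GrLie
open scoped commutatorElement

/-- `IA_n`: the group of the automorphisms of the free group `F_n` which induce the identity on the
abelianization of `F_n`. -/
def IA (n : ℕ) : Subgroup (MulAut (FreeGroup (Fin n))) where
  carrier := {φ | ∀ w : FreeGroup (Fin n), Abelianization.of (φ w) = Abelianization.of w}
  mul_mem' := by
    intro a b ha hb w
    rw [MulAut.mul_apply, ha, hb]
  one_mem' := by
    intro w
    rfl
  inv_mem' := by
    intro a ha w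
    have := ha (a⁻¹ w)
    rw [MulAut.apply_inv_self] at this
    exact this.symm

/-! ### Magnus coefficients up to degree three -/

/-- triples of tensors of degree 1, 2, 3 over `ℤ ^ 3` -/
@[ext] structure Mag where
  a : Fin 3 → ℤ
  b : Fin 3 → Fin 3 → ℤ
  c : Fin 3 → Fin 3 → Fin 3 → ℤ

instance : Mul Mag where
  mul x y := ⟨fun i => x.a i + y.a i, fun i j => x.b i j + x.a i * y.a j + y.b i j,
    fun i j k => x.c i j k + x.b i j * y.a k + x.a i * y.b j k + y.c i j k⟩

instance : One Mag where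
  one := ⟨0, 0, 0⟩

instance : Inv Mag where
  inv x := ⟨fun i => - x.a i, fun i j => - x.b i j + x.a i * x.a j,
    fun i j k => - x.c i j k + x.a i * x.b j k + x.b i j * x.a k - x.a i * x.a j * x.a k⟩

lemma mul_a (x y : Mag) (i : Fin 3) : (x * y).a i = x.a i + y.a i := rfl
lemma mul_b (x y : Mag) (i j : Fin 3) : (x * y).b i j = x.b i j + x.a i * y.a j + y.b i j := rfl
lemma mul_c (x y : Mag) (i j k : Fin 3) :
    (x * y).c i j k = x.c i j k + x.b i j * y.a k + x.a i * y.b j k + y.c i j k := rfl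
lemma one_a (i : Fin 3) : (1 : Mag).a i = 0 := rfl
lemma one_b (i j : Fin 3) : (1 : Mag).b i j = 0 := rfl
lemma one_c (i j k : Fin 3) : (1 : Mag).c i j k = 0 := rfl
lemma inv_a (x : Mag) (i : Fin 3) : (x⁻¹).a i = - x.a i := rfl
lemma inv_b (x : Mag) (i j : Fin 3) : (x⁻¹).b i j = - x.b i j + x.a i * x.a j := rfl
lemma inv_c (x : Mag) (i j k : Fin 3) :
    (x⁻¹).c i j k = - x.c i j k + x.a i * x.b j k + x.b i j * x.a k - x.a i * x.a j * x.a k := rfl

instance : Group Mag where
  mul_assoc x y z := by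
    ext <;> simp only [mul_a, mul_b, mul_c] <;> ring
  one_mul x := by
    ext <;> simp only [mul_a, mul_b, mul_c, one_a, one_b, one_c] <;> ring
  mul_one x := by
    ext <;> simp only [mul_a, mul_b, mul_c, one_a, one_b, one_c] <;> ring
  inv_mul_cancel x := by
    ext <;> simp only [mul_a, mul_b, mul_c, one_a, one_b, one_c, inv_a, inv_b, inv_c] <;> ring

/-- the generators `x_i` of the free group -/
def x (i : Fin 3) : FreeGroup (Fin 3) := FreeGroup.of i

/-- the Magnus expansion up to degree three -/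
def mu : FreeGroup (Fin 3) →* Mag :=
  FreeGroup.lift fun i => ⟨fun j => if j = i then 1 else 0, 0, 0⟩

lemma mu_a (i j : Fin 3) : (mu (x i)).a j = if j = i then 1 else 0 := by
  simp [mu, x]
lemma mu_b (i j k : Fin 3) : (mu (x i)).b j k = 0 := by
  simp [mu, x]
lemma mu_c (i j k l : Fin 3) : (mu (x i)).c j k l = 0 := by
  simp [mu, x]

/-- substitution -/
def sub (m : Fin 3 → Mag) : Mag →* Mag where
  toFun t := ⟨t.a, fun i j => t.b i j + ∑ p, t.a p * (m p).b i j,
    fun i j k => t.c i j k + ∑ p, t.a p * (m p).c i j k + ∑ p, t.b i p * (m p).b j k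
      + ∑ p, t.b p k * (m p).b i j⟩
  map_one' := by
    ext <;> simp [one_a, one_b, one_c]
  map_mul' s t := by
    ext i j k <;>
      simp only [mul_a, mul_b, mul_c, Fin.sum_univ_three] <;> ring

lemma sub_a (m : Fin 3 → Mag) (t : Mag) (i : Fin 3) : (sub m t).a i = t.a i := rfl
lemma sub_b (m : Fin 3 → Mag) (t : Mag) (i j : Fin 3) :
    (sub m t).b i j = t.b i j + ∑ p, t.a p * (m p).b i j := rfl
lemma sub_c (m : Fin 3 → Mag) (t : Mag) (i j k : Fin 3) :
    (sub m t).c i j k = t.c i j k + ∑ p, t.a p * (m p).c i j k + ∑ p, t.b i p * (m p).b j k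
      + ∑ p, t.b p k * (m p).b i j := rfl

lemma mu_sub (g : FreeGroup (Fin 3) →* FreeGroup (Fin 3))
    (hg : ∀ i j, (mu (g (x i))).a j = if j = i then 1 else 0) (w : FreeGroup (Fin 3)) :
    mu (g w) = sub (fun p => mu (g (x p))) (mu w) := by
  have : mu.comp g = (sub (fun p => mu (g (x p)))).comp mu := by
    apply FreeGroup.ext_hom
    intro i
    change mu (g (x i)) = sub (fun p => mu (g (x p))) (mu (x i))
    ext
    · rw [hg, sub_a, mu_a]
    · simp only [sub_b, mu_b, mu_a, Fin.sum_univ_three]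
      fin_cases i <;> simp
    · simp only [sub_c, mu_b, mu_a, mu_c, Fin.sum_univ_three]
      fin_cases i <;> simp
  exact DFunLike.congr_fun this w

/-- shuffle relation -/
def Shuf (t : Mag) : Prop :=
  ∀ i j, t.b i j + t.b j i = t.a i * t.a j - if i = j then t.a i else 0

lemma shuf_mu (w : FreeGroup (Fin 3)) : Shuf (mu w) := by
  have hmul : ∀ s t : Mag, Shuf s → Shuf t → Shuf (s * t) := by
    intro s t hs ht i j
    have h1 := hs i j
    have h2 := ht i j
    simp only [mul_a, mul_b]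
    split_ifs at * with h
    · subst h; linarith
    · linarith
  have hinv : ∀ s : Mag, Shuf s → Shuf s⁻¹ := by
    intro s hs i j
    have h1 := hs i j
    simp only [inv_a, inv_b]
    split_ifs at * with h
    · subst h; linarith
    · linarith
  have hx : ∀ i, Shuf (mu (x i)) := by
    intro i j k
    simp only [mu_a, mu_b]
    fin_cases i <;> fin_cases j <;> fin_cases k <;> simp
  induction w using FreeGroup.induction_on with
  | C1 => intro i j; rw [map_one]; simp [one_a, one_b]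
  | of i => exact hx i
  | inv_of i _ => rw [map_inv]; exact hinv _ (hx i)
  | mul u v hu hv => rw [map_mul]; exact hmul _ _ hu hv

lemma mu_a_congr {u v : FreeGroup (Fin 3)} (h : Abelianization.of u = Abelianization.of v)
    (j : Fin 3) : (mu u).a j = (mu v).a j := by
  let f : FreeGroup (Fin 3) →* Multiplicative ℤ :=
    { toFun := fun w => Multiplicative.ofAdd ((mu w).a j)
      map_one' := by rw [map_one, one_a]; rfl
      map_mul' := fun u v => by rw [map_mul, mul_a]; rfl }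
  have h1 : Abelianization.lift f (Abelianization.of u) = Abelianization.lift f (Abelianization.of v) :=
    by rw [h]
  rw [Abelianization.lift_apply_of, Abelianization.lift_apply_of] at h1
  exact Multiplicative.ofAdd.injective h1

/-! ### The functions on `IA_3` -/

/-- the Magnus expansion of `g(x_i)` -/
def m (g : IA 3) (i : Fin 3) : Mag := mu ((g : MulAut (FreeGroup (Fin 3))) (x i))

lemma m_a (g : IA 3) (i j : Fin 3) : (m g i).a j = if j = i then 1 else 0 := by
  rw [m, mu_a_congr (g.2 (x i)) j, mu_a]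

lemma m_mul (g h : IA 3) (i : Fin 3) : m (g * h) i = sub (m g) (m h i) :=
  mu_sub ((g : MulAut (FreeGroup (Fin 3))) : FreeGroup (Fin 3) →* FreeGroup (Fin 3))
    (fun i j => m_a g i j) _

lemma m_b_mul (g h : IA 3) (i j k : Fin 3) : (m (g * h) i).b j k = (m g i).b j k + (m h i).b j k := by
  rw [m_mul, sub_b]
  simp only [m_a, Fin.sum_univ_three]
  fin_cases i <;> simp [add_comm]

lemma m_b_diag (g : IA 3) (i j : Fin 3) : (m g i).b j j = 0 := by
  have h := shuf_mu ((g : MulAut (FreeGroup (Fin 3))) (x i)) j j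
  have h1 := m_a g i j
  change (m g i).b j j + (m g i).b j j = (m g i).a j * (m g i).a j - _ at h
  simp only [if_true] at h
  change _ = _ - (m g i).a j at h
  rw [h1] at h
  split_ifs at h <;> omega

/-- the homomorphisms `p`, `q`, `r` and the function `ψ` -/
def p (g : IA 3) : ℤ := (m g 0).b 1 0
def q (g : IA 3) : ℤ := (m g 0).b 1 2
def r (g : IA 3) : ℤ := (m g 2).b 1 2
def psi (g : IA 3) : ℤ := (m g 0).c 1 1 2

lemma p_mul (g h : IA 3) : p (g * h) = p g + p h := m_b_mul _ _ _ _ _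
lemma q_mul (g h : IA 3) : q (g * h) = q g + q h := m_b_mul _ _ _ _ _
lemma r_mul (g h : IA 3) : r (g * h) = r g + r h := m_b_mul _ _ _ _ _

lemma psi_mul (g h : IA 3) : psi (g * h) = psi g + psi h + (q g * p h + r g * q h) := by
  unfold psi p q r
  rw [m_mul, sub_c]
  simp only [m_a, Fin.sum_univ_three, m_b_diag]
  simp
  ring

/-! ### The commutator pairing -/

lemma hom_zero {f : IA 3 → ℤ} (hf : ∀ g h, f (g * h) = f g + f h) (g : IA 3)
    (hg : g ∈ lcs (IA 3) 1) : f g = 0 := by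
  let F : IA 3 →* Multiplicative ℤ :=
    { toFun := fun g => Multiplicative.ofAdd (f g)
      map_one' := by
        have := hf 1 1
        rw [one_mul] at this
        have h0 : f 1 = 0 := by omega
        rw [h0]; rfl
      map_mul' := fun g h => by rw [hf]; rfl }
  have h1 : lcs (IA 3) 1 ≤ F.ker := by
    rw [lcs, Subgroup.lowerCentralSeries_succ, Subgroup.commutator_le]
    intro g _ h _
    rw [MonoidHom.mem_ker, map_commutatorElement]
    exact commutatorElement_eq_one_iff_mul_comm.2 (mul_comm _ _)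
  exact Multiplicative.ofAdd.injective (h1 hg)

lemma hom_one {f : IA 3 → ℤ} (hf : ∀ g h, f (g * h) = f g + f h) : f 1 = 0 := by
  have := hf 1 1
  rw [one_mul] at this
  omega

lemma hom_inv {f : IA 3 → ℤ} (hf : ∀ g h, f (g * h) = f g + f h) (g : IA 3) : f g⁻¹ = - f g := by
  have h1 := hf g g⁻¹
  rw [mul_inv_cancel, hom_one hf] at h1
  omega

/-- the alternating form `α ∧ γ` -/
def bil (g h : IA 3) : ℤ := (r g - p g) * q h - q g * (r h - p h)

lemma psi_comm (g h : IA 3) : psi ⁅g, h⁆ = bil g h := by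
  have h1 : ⁅g, h⁆ * (h * g) = g * h := by
    rw [commutatorElement_def]; group
  have h2 : ⁅g, h⁆ ∈ lcs (IA 3) 1 := by
    have := lcs_comm_mem (m := 0) (n := 0) (g := g) (h := h) (Subgroup.mem_top _) (Subgroup.mem_top _)
    exact this
  have h3 := congrArg psi h1
  rw [psi_mul, psi_mul, psi_mul, hom_zero q_mul _ h2, hom_zero r_mul _ h2] at h3
  unfold bil
  linarith

lemma psi_mul_of_mem {g : IA 3} (hg : g ∈ lcs (IA 3) 1) (h : IA 3) :
    psi (g * h) = psi g + psi h := by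
  rw [psi_mul, hom_zero q_mul _ hg, hom_zero r_mul _ hg]
  ring

lemma psi_zero {g : IA 3} (hg : g ∈ lcs (IA 3) 2) : psi g = 0 := by
  have h21 : lcs (IA 3) 2 ≤ lcs (IA 3) 1 := lcs_anti (by omega)
  have hone : psi 1 = 0 := by
    have := psi_mul_of_mem (one_mem (lcs (IA 3) 1)) 1
    rw [one_mul] at this
    omega
  rw [lcs, Subgroup.mem_lowerCentralSeries_succ_iff] at hg
  have hgoal : g ∈ lcs (IA 3) 1 ∧ psi g = 0 := by
    induction hg using Subgroup.closure_induction with
    | mem w hw =>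
      obtain ⟨u, hu, v, -, rfl⟩ := hw
      have hu' : u ∈ lcs (IA 3) 1 := hu
      refine ⟨lcs_anti (by omega) (lcs_comm_mem (m := 1) (n := 0) (g := u) (h := v) hu'
        (Subgroup.mem_top _)), ?_⟩
      rw [psi_comm]
      unfold bil
      rw [hom_zero r_mul _ hu', hom_zero p_mul _ hu', hom_zero q_mul _ hu']
      ring
    | one => exact ⟨one_mem _, hone⟩
    | mul u v _ _ hu hv =>
      exact ⟨mul_mem hu.1 hv.1, by rw [psi_mul_of_mem hu.1, hu.2, hv.2, add_zero]⟩
    | inv u _ hu =>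
      refine ⟨inv_mem hu.1, ?_⟩
      have := psi_mul_of_mem hu.1 u⁻¹
      rw [mul_inv_cancel, hone, hu.2] at this
      omega
  exact hgoal.2

/-- an additive function on `Γ_{n+1}` which vanishes on `Γ_{n+2}` induces one on the quotient -/
def indHom (n : ℕ) (f : IA 3 → ℤ) (hf : ∀ g ∈ lcs (IA 3) n, ∀ h, f (g * h) = f g + f h)
    (h0 : ∀ g ∈ lcs (IA 3) (n + 1), f g = 0) : Grd (IA 3) n →+ ℤ :=
  MonoidHom.toAdditiveLeft (QuotientGroup.lift _
    ({ toFun := fun g => Multiplicative.ofAdd (f g)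
       map_one' := by
        have := h0 1 (one_mem _)
        rw [OneMemClass.coe_one, this]; rfl
       map_mul' := fun g _ => by
        rw [Subgroup.coe_mul, hf _ g.2]; rfl } : lcs (IA 3) n →* Multiplicative ℤ)
    (by
      intro g hg
      rw [MonoidHom.mem_ker]
      have := h0 g (Subgroup.mem_subgroupOf.1 hg)
      change Multiplicative.ofAdd (f g) = 1
      rw [this]; rfl))

lemma indHom_mk (n : ℕ) (f : IA 3 → ℤ) (hf) (h0) (g : lcs (IA 3) n) :
    indHom n f hf h0 (grMk n g) = f g := rfl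

/-- `ψ` on `Γ_2 / Γ_3` -/
def Psi : Grd (IA 3) 1 →+ ℤ :=
  indHom 1 psi (fun _ hg h => psi_mul_of_mem hg h) (fun _ hg => psi_zero hg)

/-- `α = r - p` on `V` -/
def al : Grd (IA 3) 0 →+ ℤ :=
  indHom 0 (fun g => r g - p g) (fun g _ h => by rw [r_mul, p_mul]; ring)
    (fun _ hg => by rw [hom_zero r_mul _ hg, hom_zero p_mul _ hg]; ring)

/-- `γ = q` on `V` -/
def ga : Grd (IA 3) 0 →+ ℤ :=
  indHom 0 q (fun g _ h => q_mul g h) (fun g hg => hom_zero q_mul _ hg)

/-! ### The Lie ring `gl_2(ℤ)` -/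

attribute [local instance 100] LieRing.ofAssociativeRing

/-- the matrices `e₂₁` and `e₁₂` -/
def ma : Matrix (Fin 2) (Fin 2) ℤ := !![0, 0; 1, 0]
def mc : Matrix (Fin 2) (Fin 2) ℤ := !![0, 1; 0, 0]

/-- the map `V → gl_2(ℤ)` -/
def toGl : Grd (IA 3) 0 →+ Matrix (Fin 2) (Fin 2) ℤ :=
  AddMonoidHom.mk' (fun v => al v • ma + ga v • mc) (fun v w => by
    rw [map_add, map_add, add_smul, add_smul]; abel)

lemma toGl_lie (v w : Grd (IA 3) 0) :
    ⁅toGl v, toGl w⁆ = (al v * ga w - ga v * al w) • ⁅ma, mc⁆ := by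
  change ⁅al v • ma + ga v • mc, al w • ma + ga w • mc⁆ = _
  rw [Ring.lie_def, Ring.lie_def]
  ext i j
  fin_cases i <;> fin_cases j <;> simp [ma, mc] <;> ring

/-- `α ∧ γ` on pairs of classes is `ψ` of the bracket. -/
lemma Psi_br (v w : Grd (IA 3) 0) : Psi (grBr 0 0 v w) = al v * ga w - ga v * al w := by
  obtain ⟨g, rfl⟩ := grMk_surj 0 v
  obtain ⟨h, rfl⟩ := grMk_surj 0 w
  rw [grBr_mk]
  change psi ⁅(g : IA 3), (h : IA 3)⁆ = (r g - p g) * q h - q g * (r h - p h)
  rw [psi_comm]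
  rfl

/-- the component of degree two -/
noncomputable def pr1 : AssocLie (IA 3) →+ Grd (IA 3) 1 :=
  (DirectSum.toAddMonoid fun n =>
    if h : n = 1 then (h ▸ AddMonoidHom.id (Grd (IA 3) n) : Grd (IA 3) n →+ Grd (IA 3) 1) else 0)

lemma pr1_of (y : Grd (IA 3) 1) : pr1 (ofL 1 y) = y := by
  have : pr1 (ofL 1 y) = (if h : (1 : ℕ) = 1 then (h ▸ AddMonoidHom.id (Grd (IA 3) 1) :
      Grd (IA 3) 1 →+ Grd (IA 3) 1) else 0) y := DirectSum.toAddMonoid_of _ _ _
  rw [this]
  simp

/-- quadratic relations map to zero in `gl_2(ℤ)` -/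
lemma lift_deg2 (z : FreeLieOn (Grd (IA 3) 0)) (hz : z ∈ deg2 (Grd (IA 3) 0)) :
    liftOn toGl z = Psi (pr1 (natural (IA 3) z)) • ⁅ma, mc⁆ := by
  induction hz using AddSubgroup.closure_induction with
  | mem z hz =>
    obtain ⟨v, w, rfl⟩ := hz
    rw [LieHom.map_lie, liftOn_inc, liftOn_inc, toGl_lie, LieHom.map_lie]
    have h1 : natural (IA 3) (inc v) = ofL 0 v := liftOn_inc _ _
    have h2 : natural (IA 3) (inc w) = ofL 0 w := liftOn_inc _ _
    have h3 : ⁅(ofL 0 v : AssocLie (IA 3)), (ofL 0 w : AssocLie (IA 3))⁆ = ofL 1 (grBr 0 0 v w) :=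
      lieHom_of 0 0 v w
    rw [h1, h2, h3, pr1_of, Psi_br]
  | zero => simp
  | add z w _ _ hz hw => rw [map_add, map_add, map_add, map_add, add_smul, hz, hw]
  | neg z _ hz => rw [map_neg, map_neg, map_neg, map_neg, neg_smul, hz]

/-! ### The automorphisms `x₁ ↦ u x₁ v` -/

/-- the subgroup `⟨x₂, x₃⟩` -/
def W : Subgroup (FreeGroup (Fin 3)) := Subgroup.closure {x 1, x 2}

/-- the endomorphism `x₁ ↦ u x₁ v`, `x₂ ↦ x₂`, `x₃ ↦ x₃` -/
def endo (u v : FreeGroup (Fin 3)) : FreeGroup (Fin 3) →* FreeGroup (Fin 3) :=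
  FreeGroup.lift fun i => if i = 0 then u * x 0 * v else x i

lemma endo_zero (u v : FreeGroup (Fin 3)) : endo u v (x 0) = u * x 0 * v := by
  simp [endo, x]
lemma endo_one (u v : FreeGroup (Fin 3)) : endo u v (x 1) = x 1 := by
  simp [endo, x]
lemma endo_two (u v : FreeGroup (Fin 3)) : endo u v (x 2) = x 2 := by
  simp [endo, x]

lemma endo_fix (u v : FreeGroup (Fin 3)) (w : W) : endo u v w = w := by
  have h : W ≤ (endo u v).eqLocus (MonoidHom.id _) := by
    rw [W, Subgroup.closure_le]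
    rintro w (rfl | rfl)
    · exact endo_one u v
    · exact endo_two u v
  exact h w.2

lemma hom_ext3 {H : Type} [Group H] {f g : FreeGroup (Fin 3) →* H} (h0 : f (x 0) = g (x 0))
    (h1 : f (x 1) = g (x 1)) (h2 : f (x 2) = g (x 2)) : f = g := by
  apply FreeGroup.ext_hom
  intro i
  fin_cases i
  · exact h0
  · exact h1
  · exact h2

lemma endo_comp (u v u' v' : W) :
    (endo u v).comp (endo u' v') = endo ((u' * u : W) : FreeGroup (Fin 3)) ((v * v' : W)) := by
  apply hom_ext3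
  · rw [MonoidHom.comp_apply, endo_zero, map_mul, map_mul, endo_fix, endo_fix, endo_zero, endo_zero,
      Subgroup.coe_mul, Subgroup.coe_mul]
    group
  · rw [MonoidHom.comp_apply, endo_one, endo_one, endo_one]
  · rw [MonoidHom.comp_apply, endo_two, endo_two, endo_two]

lemma endo_id : endo 1 1 = MonoidHom.id _ := by
  apply hom_ext3
  · rw [endo_zero]; simp
  · rw [endo_one]; rfl
  · rw [endo_two]; rfl

/-- the automorphism `x₁ ↦ u x₁ v` for `u, v ∈ ⟨x₂, x₃⟩` -/
def aut (u v : W) : MulAut (FreeGroup (Fin 3)) :=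
  MonoidHom.toMulEquiv (endo u v) (endo (u⁻¹ : W) (v⁻¹ : W))
    (by rw [endo_comp, mul_inv_cancel, inv_mul_cancel]; exact endo_id)
    (by rw [endo_comp, inv_mul_cancel, mul_inv_cancel]; exact endo_id)

lemma aut_mul (u v u' v' : W) : aut u v * aut u' v' = aut (u' * u) (v * v') :=
  MulEquiv.ext fun w => DFunLike.congr_fun (endo_comp u v u' v') w

lemma aut_one : aut 1 1 = 1 :=
  MulEquiv.ext fun w => DFunLike.congr_fun endo_id w

lemma aut_inv (u v : W) : (aut u v)⁻¹ = aut u⁻¹ v⁻¹ := by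
  rw [inv_eq_iff_mul_eq_one, aut_mul, inv_mul_cancel, mul_inv_cancel]
  exact aut_one

lemma aut_mem (u v : W)
    (h : Abelianization.of (u : FreeGroup (Fin 3)) * Abelianization.of (v : FreeGroup (Fin 3)) = 1) :
    aut u v ∈ IA 3 := by
  intro w
  have : (Abelianization.of.comp (endo u v) : FreeGroup (Fin 3) →* _) = Abelianization.of := by
    apply hom_ext3
    · rw [MonoidHom.comp_apply, endo_zero, map_mul, map_mul, mul_right_comm, h, one_mul]
    · rw [MonoidHom.comp_apply, endo_one]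
    · rw [MonoidHom.comp_apply, endo_two]
  exact DFunLike.congr_fun this w

/-- `x₂` and `x₃` as elements of `W` -/
def y : W := ⟨x 1, Subgroup.subset_closure (Or.inl rfl)⟩
def t : W := ⟨x 2, Subgroup.subset_closure (Or.inr rfl)⟩

/-- `A : x₁ ↦ x₂⁻¹ x₁ x₂` -/
def A : IA 3 := ⟨aut y⁻¹ y, aut_mem _ _ (by
  rw [Subgroup.coe_inv, map_inv, inv_mul_cancel])⟩
/-- `B : x₁ ↦ x₃⁻¹ x₁ x₃` -/
def B : IA 3 := ⟨aut t⁻¹ t, aut_mem _ _ (by
  rw [Subgroup.coe_inv, map_inv, inv_mul_cancel])⟩
/-- `C : x₁ ↦ x₁ [x₂, x₃]` -/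
def C : IA 3 := ⟨aut 1 ⁅y, t⁆, aut_mem _ _ (by
  rw [OneMemClass.coe_one, map_one, one_mul, commutatorElement_def]
  simp only [Subgroup.coe_mul, Subgroup.coe_inv, map_mul, map_inv]
  rw [mul_comm (Abelianization.of (y : FreeGroup (Fin 3))) (Abelianization.of (t : FreeGroup (Fin 3))),
    mul_inv_cancel_right, mul_inv_cancel])⟩

/-- `D = [A,B] C⁻¹` commutes with `E = [C, A]`. -/
lemma D_comm_E : ⁅⁅A, B⁆ * C⁻¹, ⁅C, A⁆⁆ = 1 := by
  rw [commutatorElement_eq_one_iff_mul_comm]
  apply Subtype.ext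
  simp only [commutatorElement_def, A, B, C, Subgroup.coe_mul, Subgroup.coe_inv]
  simp only [aut_mul, aut_inv]
  congr 1 <;> group

lemma mA : al (grMk 0 ⟨A, Subgroup.mem_top _⟩) = 1 ∧ ga (grMk 0 ⟨A, Subgroup.mem_top _⟩) = 0 := by
  have h0 : m A 0 = (mu (x 1))⁻¹ * mu (x 0) * mu (x 1) := by
    change mu (endo (y⁻¹ : W) (y : W) (x 0)) = _
    rw [endo_zero, map_mul, map_mul, Subgroup.coe_inv, map_inv]; rfl
  have h2 : m A 2 = mu (x 2) := by
    change mu (endo (y⁻¹ : W) (y : W) (x 2)) = _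
    rw [endo_two]
  constructor
  · change (m A 2).b 1 2 - (m A 0).b 1 0 = 1
    rw [h0, h2]
    simp [mul_b, inv_b, mul_a, inv_a, mu_a, mu_b]
  · change (m A 0).b 1 2 = 0
    rw [h0]
    simp [mul_b, inv_b, mul_a, inv_a, mu_a, mu_b]

lemma mC : al (grMk 0 ⟨C, Subgroup.mem_top _⟩) = 0 ∧ ga (grMk 0 ⟨C, Subgroup.mem_top _⟩) = 1 := by
  have h0 : m C 0 = mu (x 0) * (mu (x 1) * mu (x 2) * (mu (x 1))⁻¹ * (mu (x 2))⁻¹) := by
    change mu (endo (1 : W) (⁅y, t⁆ : W) (x 0)) = _
    rw [endo_zero, commutatorElement_def]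
    simp only [map_mul, Subgroup.coe_mul, Subgroup.coe_inv, map_inv, OneMemClass.coe_one,
      one_mul]
    rfl
  have h2 : m C 2 = mu (x 2) := by
    change mu (endo (1 : W) (⁅y, t⁆ : W) (x 2)) = _
    rw [endo_two]
  constructor
  · change (m C 2).b 1 2 - (m C 0).b 1 0 = 0
    rw [h0, h2]
    simp [mul_b, inv_b, mul_a, inv_a, mu_a, mu_b]
  · change (m C 0).b 1 2 = 1
    rw [h0]
    simp [mul_b, inv_b, mul_a, inv_a, mu_a, mu_b]

/-- **The Lie ring of the lower central series of `IA_3` is not quadratic.**  There is an element of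
the kernel of `L[V] → E₀^*(IA_3)` no nonzero multiple of which lies in the Lie ideal generated by the
part of degree two of the kernel; in particular `E₀^*(IA_3)` is not a free Lie algebra modulo
quadratic relations, and this remains so after tensoring with `ℚ`. -/
theorem result :
    ¬ FreeModQuadratic (IA 3) ∧
    ∃ z : FreeLieOn (Grd (IA 3) 0), natural (IA 3) z = 0 ∧
      ∀ k : ℤ, k ≠ 0 → k • z ∉ idealOf (kerDeg2 (IA 3)) := by
  set c : Grd (IA 3) 0 := grMk 0 ⟨C, Subgroup.mem_top _⟩ with hc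
  set a : Grd (IA 3) 0 := grMk 0 ⟨A, Subgroup.mem_top _⟩ with ha
  set z : FreeLieOn (Grd (IA 3) 0) := ⁅inc c, ⁅inc c, inc a⁆⁆ with hz
  -- the relation in `E₀^*`
  have hker : natural (IA 3) z = 0 := by
    have h1 : natural (IA 3) (inc c) = mkL 0 ⟨C, Subgroup.mem_top _⟩ := liftOn_inc _ _
    have h2 : natural (IA 3) (inc a) = mkL 0 ⟨A, Subgroup.mem_top _⟩ := liftOn_inc _ _
    rw [hz, LieHom.map_lie, LieHom.map_lie, h1, h2]
    have h3 : ⁅(mkL 0 ⟨C, Subgroup.mem_top _⟩ : AssocLie (IA 3)), mkL 0 ⟨A, Subgroup.mem_top _⟩⁆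
        = mkL 1 ⟨⁅C, A⁆, lcs_comm_mem (m := 0) (n := 0) (Subgroup.mem_top _) (Subgroup.mem_top _)⟩ :=
      lieHom_mkL 0 0 _ _
    have h4 : (mkL 0 ⟨C, Subgroup.mem_top _⟩ : AssocLie (IA 3))
        = - mkL 0 ⟨⁅A, B⁆ * C⁻¹, Subgroup.mem_top _⟩ := by
      have h5 : (mkL 0 ⟨⁅A, B⁆ * C⁻¹, Subgroup.mem_top _⟩ : AssocLie (IA 3))
          = mkL 0 ⟨⁅A, B⁆, Subgroup.mem_top _⟩ + mkL 0 (⟨C, Subgroup.mem_top _⟩)⁻¹ := by
        rw [← mkL_mul]; rfl
      have h6 : (mkL 0 ⟨⁅A, B⁆, Subgroup.mem_top _⟩ : AssocLie (IA 3)) = 0 := by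
        rw [← mkL_one 0]
        unfold mkL
        congr 1
        rw [grMk_eq]
        have h7 : ⁅A, B⁆ ∈ lcs (IA 3) 1 :=
          lcs_comm_mem (m := 0) (n := 0) (Subgroup.mem_top _) (Subgroup.mem_top _)
        simpa using inv_mem h7
      rw [h5, h6, zero_add, mkL_inv, neg_neg]
    rw [h3, h4, neg_lie]
    have h8 : ⁅(mkL 0 ⟨⁅A, B⁆ * C⁻¹, Subgroup.mem_top _⟩ : AssocLie (IA 3)),
        (mkL 1 ⟨⁅C, A⁆, lcs_comm_mem (m := 0) (n := 0) (Subgroup.mem_top _)
          (Subgroup.mem_top _)⟩ : AssocLie (IA 3))⁆ = 0 := by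
      refine (lieHom_mkL 0 1 _ _).trans ?_
      rw [← mkL_one (0 + 1 + 1)]
      apply mkL_congr rfl
      exact D_comm_E
    rw [h8, neg_zero]
  -- the image in `gl_2`
  have himg : liftOn toGl z = (-2 : ℤ) • mc := by
    rw [hz, LieHom.map_lie, LieHom.map_lie, liftOn_inc, liftOn_inc]
    have h1 : toGl c = mc := by
      change al c • ma + ga c • mc = mc
      rw [hc, mC.1, mC.2, zero_smul, one_smul, zero_add]
    have h2 : toGl a = ma := by
      change al a • ma + ga a • mc = ma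
      rw [ha, mA.1, mA.2, zero_smul, one_smul, add_zero]
    rw [h1, h2, Ring.lie_def, Ring.lie_def]
    ext i j
    fin_cases i <;> fin_cases j <;> simp [ma, mc]
  have hspan : idealOf (kerDeg2 (IA 3)) ≤ (liftOn toGl).ker := by
    rw [idealOf, LieSubmodule.lieSpan_le]
    rintro s ⟨hs, hs0⟩
    rw [SetLike.mem_coe, LieHom.mem_ker, lift_deg2 s hs, hs0, map_zero, map_zero, zero_smul]
  have hk : ∀ k : ℤ, k ≠ 0 → k • z ∉ idealOf (kerDeg2 (IA 3)) := by
    intro k hk hmem
    have h1 := hspan hmem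
    rw [LieHom.mem_ker, map_zsmul, himg] at h1
    have h2 := congrFun (congrFun h1 0) 1
    simp [mc] at h2
    exact hk h2
  refine ⟨?_, z, hker, hk⟩
  rintro ⟨S, hS, hSker⟩
  have hz1 : z ∈ (natural (IA 3)).ker := LieHom.mem_ker.2 hker
  have hsub : S ⊆ kerDeg2 (IA 3) := by
    intro s hs
    refine ⟨hS s hs, ?_⟩
    have : s ∈ (natural (IA 3)).ker := by
      rw [hSker]; exact LieSubmodule.subset_lieSpan hs
    exact LieHom.mem_ker.1 this
  rw [hSker] at hz1
  apply hk 1 one_ne_zero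
  rw [one_smul]
  exact LieSubmodule.lieSpan_mono hsub hz1

end Pool.Agent.Results.MP_df4ecf_al.CubicRelationIA3
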